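import Pool.Agent.Lib.MP_ef18bd_co.Trans

/-!
# The complete graph on four vertices: the two numbers differ
-/

namespace EF18

open Finset

/-- the complete graph on four vertices -/
abbrev K4 : SimpleGraph (Fin 4) := ⊤

theorem k4_cubic : K4.IsRegularOfDegree 3 := by
  intro v
  rw [← SimpleGraph.card_neighborFinset_eq_degree]
  revert v
  decide

theorem k4_cn (v : Fin 4) : cn K4 v = univ := by
  revert v
  decide

theorem k4_minus_le : upperMinus K4 ≤ 1 := by
  obtain ⟨f, hf, hw⟩ := (attained k4_cubic).1
  rw [hw]
  by_contra hcon
  push Not at hcon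
  obtain ⟨v, hv⟩ : ∃ v, 0 < f v := by
    by_contra h
    push Not at h
    have := sum_nonpos (fun v (_ : v ∈ (univ : Finset (Fin 4))) => h v)
    omega
  have hsum : ∑ u, (fun u => f u - if u = v then 1 else 0) u = ∑ u, f u - 1 := by
    simp [sum_sub_distrib]
  have hg := hf.2 (fun u => f u - if u = v then 1 else 0) ⟨?_, ?_⟩ ?_
  · have := congrFun hg v
    simp at this
  · intro u
    rcases hf.1.1 u with h | h | h
    · by_cases huv : u = v
      · subst huv
        omega
      · simp [huv, h]
    · by_cases huv : u = v
      · subst huv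
        omega
      · simp [huv, h]
    · by_cases huv : u = v
      · simp [huv, huv ▸ h]
      · simp [huv, h]
  · intro u
    rw [k4_cn, hsum]
    omega
  · intro u
    split_ifs <;> omega

theorem k4_signed_ge : 2 ≤ upperSigned K4 := by
  have h := le_upperSigned k4_cubic (S := {0}) (by intro v; rw [k4_cn]; decide)
    (by intro v _; exact ⟨0, by rw [k4_cn]; exact mem_univ _, 0, by rw [k4_cn]; decide⟩)
  simpa using h

/-- on the complete graph with four vertices the upper minus number is smaller -/
theorem k4_lt : upperMinus K4 < upperSigned K4 :=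
  lt_of_le_of_lt k4_minus_le (lt_of_lt_of_le (by norm_num) k4_signed_ge)

end EF18
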