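import Pool.Agent.Lib.MP_ef18bd_co.P.Game

/-!
# Exchanges at a minimum maximal packing
-/

set_option linter.unusedSimpArgs false

namespace EF18

open Finset

variable {V : Type} [Fintype V] [DecidableEq V] {G : SimpleGraph V} [DecidableRel G.Adj]

/-- a maximal packing of minimum size -/
structure MinPk (G : SimpleGraph V) [DecidableRel G.Adj] (M : Finset V) : Prop where
  sc : ∀ s ∈ M, ∀ t ∈ M, s ∈ B2 G t → s = t
  dom : ∀ x, ∃ s ∈ M, x ∈ B2 G s
  min : ∀ S : Finset V, (∀ s ∈ S, ∀ t ∈ S, s ∈ B2 G t → s = t) → (∀ x, ∃ s ∈ S, x ∈ B2 G s) →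
    M.card ≤ S.card

theorem exists_minPk (G : SimpleGraph V) [DecidableRel G.Adj] : ∃ M : Finset V, MinPk G M := by
  classical
  obtain ⟨S, hp, -, -, hm⟩ := exists_max G (univ : Finset V) ∅ (by intro v; simp) (empty_subset _)
  have hne : (univ.filter (fun S : Finset V => (∀ s ∈ S, ∀ t ∈ S, s ∈ B2 G t → s = t) ∧
      ∀ x, ∃ s ∈ S, x ∈ B2 G s)).Nonempty := by
    refine ⟨S, ?_⟩
    rw [mem_filter]
    refine ⟨mem_univ _, ?_, ?_⟩
    · intro s hs t ht hst
      obtain ⟨x, hx, hsx⟩ := mem_B2.1 hst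
      exact card_le_one.1 (hp x) s (mem_inter.2 ⟨hsx, hs⟩) t (mem_inter.2 ⟨mem_cn_comm.1 hx, ht⟩)
    · intro x
      obtain ⟨u, hu, s, hs⟩ := hm x (mem_univ x)
      rw [mem_inter] at hs
      exact ⟨s, hs.2, mem_B2.2 ⟨u, mem_cn_comm.1 hs.1, mem_cn_comm.1 hu⟩⟩
  obtain ⟨M, hM, hmin⟩ := exists_min_image _ (fun S : Finset V => S.card) hne
  rw [mem_filter] at hM
  exact ⟨M, hM.2.1, hM.2.2, fun T h1 h2 => hmin T (mem_filter.2 ⟨mem_univ _, h1, h2⟩)⟩

/-- the members of the packing within distance two -/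
def RR (G : SimpleGraph V) [DecidableRel G.Adj] (M : Finset V) (a : V) : Finset V :=
  M.filter (fun m => m ∈ B2 G a)

theorem RR_sub {M : Finset V} {a : V} : RR G M a ⊆ M := filter_subset _ _

/-- the vertices which are no longer covered when `a` replaces the members of the packing near `a` -/
def UU (G : SimpleGraph V) [DecidableRel G.Adj] (M : Finset V) (a : V) : Finset V :=
  univ.filter (fun u => u ∉ B2 G a ∧ ∀ m ∈ M, m ∈ B2 G u → m ∈ B2 G a)

theorem mem_UU {M : Finset V} {a u : V} :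
    u ∈ UU G M a ↔ u ∉ B2 G a ∧ ∀ m ∈ M, m ∈ B2 G u → m ∈ B2 G a := by
  simp [UU]

theorem mem_RR {M : Finset V} {a m : V} : m ∈ RR G M a ↔ m ∈ M ∧ m ∈ B2 G a := by
  simp [RR]

theorem MinPk.exch1 {M : Finset V} (h : MinPk G M) {a : V} (ha : a ∉ M) (h2 : 2 ≤ (RR G M a).card) :
    (UU G M a).Nonempty := by
  by_contra hne
  rw [not_nonempty_iff_eq_empty] at hne
  have haS : a ∉ M \ RR G M a := fun h => ha (mem_sdiff.1 h).1
  have h1 := h.min (insert a (M \ RR G M a)) ?_ ?_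
  · rw [card_insert_of_notMem haS, card_sdiff_of_subset RR_sub] at h1
    have : (RR G M a).card ≤ M.card := card_le_card (filter_subset _ _)
    omega
  · intro s hs t ht hst
    rw [mem_insert, mem_sdiff, mem_RR] at hs ht
    rcases hs with rfl | hs <;> rcases ht with rfl | ht
    · rfl
    · exact absurd ⟨ht.1, mem_B2_comm.1 hst⟩ ht.2
    · exact absurd ⟨hs.1, hst⟩ hs.2
    · exact h.sc s hs.1 t ht.1 hst
  · intro x
    by_cases hx : x ∈ B2 G a
    · exact ⟨a, mem_insert_self _ _, hx⟩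
    · have hxU : x ∉ UU G M a := by rw [hne]; exact notMem_empty x
      rw [mem_UU] at hxU
      push Not at hxU
      obtain ⟨m, hm, hmx, hma⟩ := hxU hx
      exact ⟨m, mem_insert_of_mem (mem_sdiff.2 ⟨hm, fun h => hma (mem_RR.1 h).2⟩), mem_B2_comm.1 hmx⟩

theorem MinPk.exch2 {M : Finset V} (h : MinPk G M) {a w : V} (ha : a ∉ M) (h3 : 3 ≤ (RR G M a).card)
    (hw : w ∈ UU G M a) : ∃ w' ∈ UU G M a, w' ∉ B2 G w := by
  by_contra hne
  push Not at hne
  have hw2 := mem_UU.1 hw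
  have haS : a ∉ M \ RR G M a := fun h => ha (mem_sdiff.1 h).1
  have h1 := h.min (insert w (insert a (M \ RR G M a))) ?_ ?_
  · have := card_insert_le w (insert a (M \ RR G M a))
    rw [card_insert_of_notMem haS, card_sdiff_of_subset RR_sub] at this
    have : (RR G M a).card ≤ M.card := card_le_card (filter_subset _ _)
    omega
  · intro s hs t ht hst
    rw [mem_insert, mem_insert, mem_sdiff, mem_RR] at hs ht
    rcases hs with rfl | rfl | hs <;> rcases ht with rfl | rfl | ht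
    · rfl
    · exact absurd hst hw2.1
    · exact absurd ⟨ht.1, hw2.2 t ht.1 (mem_B2_comm.1 hst)⟩ ht.2
    · exact absurd (mem_B2_comm.1 hst) hw2.1
    · rfl
    · exact absurd ⟨ht.1, mem_B2_comm.1 hst⟩ ht.2
    · exact absurd ⟨hs.1, hw2.2 s hs.1 hst⟩ hs.2
    · exact absurd ⟨hs.1, hst⟩ hs.2
    · exact h.sc s hs.1 t ht.1 hst
  · intro x
    by_cases hx : x ∈ B2 G a
    · exact ⟨a, by simp, hx⟩
    · by_cases hxU : x ∈ UU G M a
      · exact ⟨w, by simp, hne x hxU⟩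
      · rw [mem_UU] at hxU
        push Not at hxU
        obtain ⟨m, hm, hmx, hma⟩ := hxU hx
        exact ⟨m, mem_insert_of_mem (mem_insert_of_mem
          (mem_sdiff.2 ⟨hm, fun h => hma (mem_RR.1 h).2⟩)), mem_B2_comm.1 hmx⟩

/-- no cycles of length at most six -/
structure NoShort (G : SimpleGraph V) : Prop where
  t3 : ∀ a b c, G.Adj a b → G.Adj b c → G.Adj c a → False
  c4 : ∀ a b c d, G.Adj a b → G.Adj b c → G.Adj c d → G.Adj d a → a ≠ c → b ≠ d → False
  c5 : ∀ a b c d e, G.Adj a b → G.Adj b c → G.Adj c d → G.Adj d e → G.Adj e a → False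
  c6 : ∀ a b c d e f, G.Adj a b → G.Adj b c → G.Adj c d → G.Adj d e → G.Adj e f → G.Adj f a →
    a ≠ c → b ≠ d → c ≠ e → d ≠ f → e ≠ a → f ≠ b → False

omit [Fintype V] [DecidableEq V] [DecidableRel G.Adj] in
theorem noShort (hg : 7 ≤ G.egirth) : NoShort G := by
  rw [SimpleGraph.le_egirth] at hg
  have t3 : ∀ a b c, G.Adj a b → G.Adj b c → G.Adj c a → False := by
    intro a b c h1 h2 h3
    have := hg a (.cons h1 (.cons h2 (.cons h3 .nil))) (by
      simp [SimpleGraph.Walk.cons_isCycle_iff, h1.ne, h1.ne', h2.ne, h2.ne', h3.ne, h3.ne'])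
    simp at this
    exact absurd this (by decide)
  have c4 : ∀ a b c d, G.Adj a b → G.Adj b c → G.Adj c d → G.Adj d a → a ≠ c → b ≠ d → False := by
    intro a b c d h1 h2 h3 h4 h5 h6
    have := hg a (.cons h1 (.cons h2 (.cons h3 (.cons h4 .nil)))) (by
      simp [SimpleGraph.Walk.cons_isCycle_iff, h1.ne, h1.ne', h2.ne, h2.ne', h3.ne, h3.ne', h4.ne, h4.ne', h5,
        h5.symm, h6, h6.symm])
    simp at this
    exact absurd this (by decide)
  have c5 : ∀ a b c d e, G.Adj a b → G.Adj b c → G.Adj c d → G.Adj d e → G.Adj e a → False := by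
    intro a b c d e h1 h2 h3 h4 h5
    have n1 : a ≠ c := fun h => t3 a d e (h ▸ h3) h4 h5
    have n2 : a ≠ d := fun h => t3 a b c h1 h2 (h ▸ h3)
    have n3 : b ≠ d := fun h => t3 b e a (h ▸ h4) h5 h1
    have n4 : b ≠ e := fun h => t3 b c d h2 h3 (h ▸ h4)
    have n5 : c ≠ e := fun h => t3 c a b (h ▸ h5) h1 h2
    have := hg a (.cons h1 (.cons h2 (.cons h3 (.cons h4 (.cons h5 .nil))))) (by
      simp [SimpleGraph.Walk.cons_isCycle_iff, h1.ne, h1.ne', h2.ne, h2.ne', h3.ne, h3.ne', h4.ne, h4.ne', h5.ne,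
        h5.ne', n1, n1.symm, n2, n2.symm, n3, n3.symm, n4, n4.symm, n5, n5.symm])
    simp at this
    exact absurd this (by decide)
  refine ⟨t3, c4, c5, ?_⟩
  intro a b c d e f h1 h2 h3 h4 h5 h6 n1 n2 n3 n4 n5 n6
  have m1 : a ≠ d := fun h => t3 a b c h1 h2 (h ▸ h3)
  have m2 : b ≠ e := fun h => t3 b c d h2 h3 (h ▸ h4)
  have m3 : c ≠ f := fun h => t3 c d e h3 h4 (h ▸ h5)
  have := hg a (.cons h1 (.cons h2 (.cons h3 (.cons h4 (.cons h5 (.cons h6 .nil)))))) (by
    simp [SimpleGraph.Walk.cons_isCycle_iff, h1.ne, h1.ne', h2.ne, h2.ne', h3.ne, h3.ne', h4.ne, h4.ne', h5.ne,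
      h5.ne', h6.ne, h6.ne', n1, n1.symm, n2, n2.symm, n3, n3.symm, n4, n4.symm, n5, n5.symm, n6, n6.symm, m1,
      m1.symm, m2, m2.symm, m3, m3.symm])
  simp at this
  exact absurd this (by decide)

end EF18
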