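import Pool.Agent.Lib.MP_ef18bd_co.Trans

/-!
# The complete bipartite graph on three and three vertices: the two numbers differ
-/

namespace EF18

open Finset

/-- the complete bipartite graph on three and three vertices -/
abbrev K33 : SimpleGraph (Fin 3 ⊕ Fin 3) := completeBipartiteGraph (Fin 3) (Fin 3)

instance : DecidableRel K33.Adj := fun a b => by
  unfold K33 completeBipartiteGraph
  infer_instance

/-- a vertex of value above the least one lies in a tight closed neighbourhood -/
theorem exists_tight {V : Type} [Fintype V] [DecidableEq V] {G : SimpleGraph V} [DecidableRel G.Adj]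
    {f : V → ℤ} (hf : MinimalMinus G f) {v : V} (hv : -1 < f v) :
    ∃ u ∈ cn G v, ∑ w ∈ cn G u, f w ≤ 1 := by
  by_contra hcon
  push Not at hcon
  have hg := hf.2 (fun u => f u - if u = v then 1 else 0) ⟨?_, ?_⟩ ?_
  · have := congrFun hg v
    simp at this
  · intro u
    rcases hf.1.1 u with h | h | h
    · by_cases huv : u = v
      · subst huv
        omega
      · simp [huv, h]
    · by_cases huv : u = v
      · subst huv
        simp [h]
      · simp [huv, h]
    · by_cases huv : u = v
      · subst huv
        simp [h]
      · simp [huv, h]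
  · intro u
    have hs : ∑ w ∈ cn G u, (f w - if w = v then 1 else 0) =
        ∑ w ∈ cn G u, f w - if v ∈ cn G u then 1 else 0 := by
      simp [sum_sub_distrib]
    rw [hs]
    split_ifs with h
    · have := hcon u (mem_cn_comm.1 h)
      omega
    · have := hf.1.2 u
      omega
  · intro u
    split_ifs <;> omega

theorem k33_cubic : K33.IsRegularOfDegree 3 := by
  intro v
  rw [← SimpleGraph.card_neighborFinset_eq_degree]
  revert v
  decide

theorem k33_free : K33.CliqueFree 3 := by
  have h : K33.Colorable 2 := by
    simpa using (SimpleGraph.CompleteBipartiteGraph.bicoloring (Fin 3) (Fin 3)).colorable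
  exact h.cliqueFree (by norm_num)

theorem k33_rest (v : Fin 3 ⊕ Fin 3) : (univ \ cn K33 v).card = 2 := by
  revert v
  decide

theorem k33_minus_le : upperMinus K33 ≤ 3 := by
  obtain ⟨f, hf, hw⟩ := (attained k33_cubic).1
  rw [hw]
  by_contra hcon
  push Not at hcon
  obtain ⟨v, hv⟩ : ∃ v, -1 < f v := by
    by_contra h
    push Not at h
    have := sum_nonpos (fun v (_ : v ∈ (univ : Finset (Fin 3 ⊕ Fin 3))) => (h v).trans (by norm_num))
    omega
  obtain ⟨u, -, hu⟩ := exists_tight hf hv
  have h1 : ∑ w, f w = ∑ w ∈ univ \ cn K33 u, f w + ∑ w ∈ cn K33 u, f w :=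
    (sum_sdiff (subset_univ _)).symm
  have h2 : ∑ w ∈ univ \ cn K33 u, f w ≤ (univ \ cn K33 u).card • (1 : ℤ) :=
    sum_le_card_nsmul _ _ _ fun w _ => by
      rcases hf.1.1 w with h | h | h <;> omega
  rw [k33_rest, show (2 : ℕ) • (1 : ℤ) = 2 by norm_num] at h2
  omega

theorem k33_signed_ge : 4 ≤ upperSigned K33 := by
  have h := le_upperSigned k33_cubic (S := {Sum.inl 0}) (by unfold Pk; decide)
    (by unfold Mx; decide)
  simpa using h

/-- on the complete bipartite graph with three and three vertices the upper minus number is smaller -/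
theorem k33_lt : upperMinus K33 < upperSigned K33 :=
  lt_of_le_of_lt k33_minus_le (lt_of_lt_of_le (by norm_num) k33_signed_ge)

end EF18
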