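import Pool.Agent.Lib.MP_ef18bd_co.X.Exch

/-!
# Arms of a minimum maximal packing and the vertices released by an exchange
-/

set_option linter.unusedSectionVars false

namespace EF18

open Finset

variable {V : Type} [Fintype V] [DecidableEq V] {G : SimpleGraph V} [DecidableRel G.Adj]

/-- the arms: vertices adjacent to a member of the packing -/
def Ar (G : SimpleGraph V) [DecidableRel G.Adj] (M : Finset V) : Finset V :=
  univ.filter (fun a => ∃ m ∈ M, G.Adj m a)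

/-- the vertices at distance exactly two from the packing -/
def Zz (G : SimpleGraph V) [DecidableRel G.Adj] (M : Finset V) : Finset V :=
  univ.filter (fun z => z ∉ M ∧ ∀ m ∈ M, ¬G.Adj m z)

/-- neighbours among the arms -/
def nA (G : SimpleGraph V) [DecidableRel G.Adj] (M : Finset V) (a : V) : Finset V :=
  G.neighborFinset a ∩ Ar G M

/-- neighbours at distance two from the packing -/
def nZ (G : SimpleGraph V) [DecidableRel G.Adj] (M : Finset V) (a : V) : Finset V :=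
  G.neighborFinset a ∩ Zz G M

/-- two arms at the same centre -/
def Sib (G : SimpleGraph V) (M : Finset V) (p q : V) : Prop := p ≠ q ∧ ∃ m ∈ M, G.Adj m p ∧ G.Adj m q

variable {M : Finset V}

theorem mem_Ar {a : V} : a ∈ Ar G M ↔ ∃ m ∈ M, G.Adj m a := by simp [Ar]
theorem mem_Zz {z : V} : z ∈ Zz G M ↔ z ∉ M ∧ ∀ m ∈ M, ¬G.Adj m z := by simp [Zz]
theorem mem_nA {a x : V} : x ∈ nA G M a ↔ G.Adj a x ∧ x ∈ Ar G M := by simp [nA]
theorem mem_nZ {a x : V} : x ∈ nZ G M a ↔ G.Adj a x ∧ x ∈ Zz G M := by simp [nZ]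

theorem b2_adj {u v : V} (h : G.Adj u v) : u ∈ B2 G v :=
  mem_B2.2 ⟨v, self_mem_cn, mem_cn.2 (Or.inr h.symm)⟩

theorem b2_mid {x u v : V} (h1 : G.Adj x u) (h2 : G.Adj x v) : u ∈ B2 G v :=
  mem_B2.2 ⟨x, mem_cn.2 (Or.inr h2.symm), mem_cn.2 (Or.inr h1)⟩

theorem b2_cases {u v : V} (h : u ∈ B2 G v) : u = v ∨ G.Adj u v ∨ ∃ x, G.Adj x u ∧ G.Adj x v := by
  obtain ⟨x, hx, hu⟩ := mem_B2.1 h
  rcases mem_cn.1 hx with rfl | hx
  · rcases mem_cn.1 hu with rfl | hu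
    · exact Or.inl rfl
    · exact Or.inr (Or.inl hu.symm)
  · rcases mem_cn.1 hu with rfl | hu
    · exact Or.inr (Or.inl hx.symm)
    · exact Or.inr (Or.inr ⟨x, hu, hx.symm⟩)

theorem Sib.symm {p q : V} (h : Sib G M p q) : Sib G M q p := by
  obtain ⟨h1, m, hm, h2, h3⟩ := h
  exact ⟨h1.symm, m, hm, h3, h2⟩

namespace MinPk

theorem uniq (hm : MinPk G M) {m n a : V} (h1 : m ∈ M) (h2 : n ∈ M) (h3 : G.Adj m a) (h4 : G.Adj n a) :
    m = n := hm.sc m h1 n h2 (b2_mid h3.symm h4.symm)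

theorem notMem (hm : MinPk G M) {m a : V} (h1 : m ∈ M) (h3 : G.Adj m a) : a ∉ M := fun h =>
  h3.ne (hm.sc m h1 a h (b2_adj h3))

theorem ar_notMem (hm : MinPk G M) {a : V} (h : a ∈ Ar G M) : a ∉ M := by
  obtain ⟨m, h1, h2⟩ := mem_Ar.1 h
  exact hm.notMem h1 h2

theorem zz_notAr {z : V} (h : z ∈ Zz G M) : z ∉ Ar G M := fun h2 => by
  obtain ⟨m, h1, h3⟩ := mem_Ar.1 h2
  exact (mem_Zz.1 h).2 m h1 h3

theorem cases3 (x : V) : x ∈ M ∨ x ∈ Ar G M ∨ x ∈ Zz G M := by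
  by_cases h1 : x ∈ M
  · exact Or.inl h1
  · by_cases h2 : x ∈ Ar G M
    · exact Or.inr (Or.inl h2)
    · refine Or.inr (Or.inr (mem_Zz.2 ⟨h1, fun m hm h3 => h2 (mem_Ar.2 ⟨m, hm, h3⟩)⟩))

theorem nA_nonempty (hm : MinPk G M) {z : V} (hz : z ∈ Zz G M) : (nA G M z).Nonempty := by
  obtain ⟨s, hs, hzs⟩ := hm.dom z
  rcases b2_cases hzs with rfl | h | ⟨x, hx, hx2⟩
  · exact absurd hs (mem_Zz.1 hz).1
  · exact absurd h.symm ((mem_Zz.1 hz).2 s hs)
  · exact ⟨x, mem_nA.2 ⟨hx.symm, mem_Ar.2 ⟨s, hs, hx2.symm⟩⟩⟩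

theorem card_two (hG : G.IsRegularOfDegree 3) (hm : MinPk G M) {a : V} (ha : a ∈ Ar G M) :
    (nA G M a).card + (nZ G M a).card = 2 := by
  obtain ⟨c, hc, hca⟩ := mem_Ar.1 ha
  have h1 : G.neighborFinset a = insert c (nA G M a ∪ nZ G M a) := by
    ext x
    rw [mem_insert, mem_union, mem_nA, mem_nZ, SimpleGraph.mem_neighborFinset]
    constructor
    · intro hx
      rcases cases3 (G := G) (M := M) x with h | h | h
      · exact Or.inl (hm.uniq h hc hx.symm hca)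
      · exact Or.inr (Or.inl ⟨hx, h⟩)
      · exact Or.inr (Or.inr ⟨hx, h⟩)
    · rintro (rfl | h | h)
      · exact hca.symm
      · exact h.1
      · exact h.1
  have h2 : c ∉ nA G M a ∪ nZ G M a := by
    rw [mem_union, mem_nA, mem_nZ]
    rintro (h | h)
    · exact hm.ar_notMem h.2 hc
    · exact (mem_Zz.1 h.2).1 hc
  have h3 : Disjoint (nA G M a) (nZ G M a) := by
    rw [disjoint_left]
    intro x hx hx2
    exact zz_notAr (mem_nZ.1 hx2).2 (mem_nA.1 hx).2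
  have h4 : (G.neighborFinset a).card = 3 := by
    rw [SimpleGraph.card_neighborFinset_eq_degree]
    exact hG a
  rw [h1, card_insert_of_notMem h2, card_union_of_disjoint h3] at h4
  omega

theorem nA_le (hG : G.IsRegularOfDegree 3) (hm : MinPk G M) {a : V} (ha : a ∈ Ar G M) :
    (nA G M a).card ≤ 2 := by
  have := card_two hG hm ha
  omega

theorem mem_ball (hm : MinPk G M) {a c m : V} (hc : c ∈ M) (hca : G.Adj c a) (h : m ∈ M) :
    m ∈ B2 G a ↔ m = c ∨ ∃ q ∈ nA G M a, G.Adj m q := by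
  constructor
  · intro h1
    rcases b2_cases h1 with rfl | h2 | ⟨x, hx, hx2⟩
    · exact absurd h (hm.notMem hc hca)
    · exact Or.inl (hm.uniq h hc h2 hca)
    · exact Or.inr ⟨x, mem_nA.2 ⟨hx2.symm, mem_Ar.2 ⟨m, h, hx.symm⟩⟩, hx.symm⟩
  · rintro (rfl | ⟨q, hq, hmq⟩)
    · exact b2_adj hca
    · exact b2_mid hmq.symm (mem_nA.1 hq).1.symm

/-- centres of neighbouring arms are different -/
theorem ne_centre (hs : NoShort G) {a q c m : V} (h1 : G.Adj c a) (h2 : G.Adj m q) (h3 : G.Adj a q) :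
    m ≠ c := by
  rintro rfl
  exact hs.t3 m a q h1 h3 h2.symm

/-- centres of two neighbouring arms -/
theorem ne_centre2 (hs : NoShort G) {a q r m n : V} (ha : a ≠ m) (h1 : G.Adj m q) (h2 : G.Adj n r)
    (h3 : G.Adj a q) (h4 : G.Adj a r) (h5 : q ≠ r) : m ≠ n := by
  rintro rfl
  exact hs.c4 a q m r h3 h1.symm h2 h4.symm ha h5

theorem card_RR1 (hs : NoShort G) {a q : V} (ha : a ∈ Ar G M) (hq : q ∈ nA G M a) :
    2 ≤ (RR G M a).card := by
  obtain ⟨c, hc, hca⟩ := mem_Ar.1 ha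
  obtain ⟨n, hn, hnq⟩ := mem_Ar.1 (mem_nA.1 hq).2
  have h1 : ({c, n} : Finset V) ⊆ RR G M a := by
    intro x hx
    rw [mem_insert, mem_singleton] at hx
    rcases hx with rfl | rfl
    · exact mem_RR.2 ⟨hc, b2_adj hca⟩
    · exact mem_RR.2 ⟨hn, b2_mid hnq.symm (mem_nA.1 hq).1.symm⟩
  have h2 := card_le_card h1
  rwa [card_pair (ne_centre hs hca hnq (mem_nA.1 hq).1).symm] at h2

theorem card_RR2 (hm : MinPk G M) (hs : NoShort G) {a q r : V} (ha : a ∈ Ar G M) (hq : q ∈ nA G M a)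
    (hr : r ∈ nA G M a) (hqr : q ≠ r) : 3 ≤ (RR G M a).card := by
  obtain ⟨c, hc, hca⟩ := mem_Ar.1 ha
  obtain ⟨n, hn, hnq⟩ := mem_Ar.1 (mem_nA.1 hq).2
  obtain ⟨k, hk, hkr⟩ := mem_Ar.1 (mem_nA.1 hr).2
  have h1 : ({c, n, k} : Finset V) ⊆ RR G M a := by
    intro x hx
    rw [mem_insert, mem_insert, mem_singleton] at hx
    rcases hx with rfl | rfl | rfl
    · exact mem_RR.2 ⟨hc, b2_adj hca⟩
    · exact mem_RR.2 ⟨hn, b2_mid hnq.symm (mem_nA.1 hq).1.symm⟩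
    · exact mem_RR.2 ⟨hk, b2_mid hkr.symm (mem_nA.1 hr).1.symm⟩
  have h2 := card_le_card h1
  have e1 := ne_centre hs hca hnq (mem_nA.1 hq).1
  have e2 := ne_centre hs hca hkr (mem_nA.1 hr).1
  have e0 : a ≠ n := fun h => hm.ar_notMem ha (h ▸ hn)
  have e3 : n ≠ k := ne_centre2 hs e0 hnq hkr (mem_nA.1 hq).1 (mem_nA.1 hr).1 hqr
  rwa [card_eq_three.2 ⟨c, n, k, e1.symm, e2.symm, e3, rfl⟩] at h2

/-! ### the released vertices -/

theorem U_notM {a u : V} (hu : u ∈ UU G M a) : u ∉ M := fun h =>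
  (mem_UU.1 hu).1 ((mem_UU.1 hu).2 u h self_mem_B2)

theorem U_nadj {a u : V} (hu : u ∈ UU G M a) : ¬G.Adj u a := fun h => (mem_UU.1 hu).1 (b2_adj h)

theorem U_nmid {a u x : V} (hu : u ∈ UU G M a) (h : G.Adj a x) : ¬G.Adj x u := fun h2 =>
  (mem_UU.1 hu).1 (b2_mid h2 h.symm)

theorem U_arm (hm : MinPk G M) {a c u m : V} (hc : c ∈ M) (hca : G.Adj c a) (hu : u ∈ UU G M a)
    (h1 : m ∈ M) (h2 : G.Adj m u) : ∃ q ∈ nA G M a, G.Adj m q ∧ q ≠ u := by
  rcases (hm.mem_ball hc hca h1).1 ((mem_UU.1 hu).2 m h1 (b2_adj h2)) with rfl | ⟨q, hq, h3⟩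
  · exact absurd h2 (U_nmid hu hca.symm)
  · exact ⟨q, hq, h3, fun h => U_nadj hu (h ▸ (mem_nA.1 hq).1.symm)⟩

theorem U_nbr (hm : MinPk G M) {a c u v m : V} (hc : c ∈ M) (hca : G.Adj c a) (hu : u ∈ UU G M a)
    (hv : G.Adj u v) (h1 : m ∈ M) (h2 : G.Adj m v) : m = c ∨ ∃ q ∈ nA G M a, G.Adj m q :=
  (hm.mem_ball hc hca h1).1 ((mem_UU.1 hu).2 m h1 (b2_mid h2.symm hv.symm))

/-- near the siblings of `q` -/
def Near (G : SimpleGraph V) [DecidableRel G.Adj] (M : Finset V) (q u : V) : Prop :=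
  ∃ s, Sib G M q s ∧ (u = s ∨ (u ∈ Zz G M ∧ G.Adj s u))

open scoped Classical in
/-- released vertices which see only the siblings of `a` -/
noncomputable def Yy (G : SimpleGraph V) [DecidableRel G.Adj] (M : Finset V) (a : V) : Finset V :=
  (UU G M a).filter (fun z => z ∈ Zz G M ∧ ∀ v ∈ nA G M z, Sib G M a v)

theorem mem_Yy {a z : V} : z ∈ Yy G M a ↔ z ∈ UU G M a ∧ z ∈ Zz G M ∧ ∀ v ∈ nA G M z, Sib G M a v := by
  classical
  simp [Yy]

/-- a released vertex `z` outside the arms: each arm next to it is a sibling of `a` or of a neighbour of `a` -/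
theorem U_z (hm : MinPk G M) {a z v : V} (ha : a ∈ Ar G M) (hz : z ∈ UU G M a) (hv : v ∈ nA G M z) :
    Sib G M a v ∨ ∃ q ∈ nA G M a, Sib G M q v := by
  obtain ⟨c, hc, hca⟩ := mem_Ar.1 ha
  obtain ⟨hv1, hv2⟩ := mem_nA.1 hv
  obtain ⟨m, h1, h2⟩ := mem_Ar.1 hv2
  rcases U_nbr hm hc hca hz hv1 h1 h2 with rfl | ⟨q, hq, h3⟩
  · exact Or.inl ⟨fun h => U_nadj hz (h ▸ hv1), m, hc, hca, h2⟩
  · exact Or.inr ⟨q, hq, fun h => U_nmid hz (mem_nA.1 hq).1 (h ▸ hv1.symm), m, h1, h3, h2⟩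

theorem U_a (hm : MinPk G M) {a u : V} (ha : a ∈ Ar G M) (hu : u ∈ UU G M a) (h : u ∈ Ar G M) :
    ∃ q ∈ nA G M a, Sib G M q u := by
  obtain ⟨c, hc, hca⟩ := mem_Ar.1 ha
  obtain ⟨m, h1, h2⟩ := mem_Ar.1 h
  obtain ⟨q, hq, h3, h4⟩ := U_arm hm hc hca hu h1 h2
  exact ⟨q, hq, h4, m, h1, h3, h2⟩

theorem U_split (hm : MinPk G M) {a u : V} (ha : a ∈ Ar G M) (hu : u ∈ UU G M a) :
    (∃ q ∈ nA G M a, Near G M q u) ∨ u ∈ Yy G M a := by
  rcases cases3 (G := G) (M := M) u with h | h | h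
  · exact absurd h (U_notM hu)
  · obtain ⟨q, hq, h2⟩ := U_a hm ha hu h
    exact Or.inl ⟨q, hq, u, h2, Or.inl rfl⟩
  · by_cases h3 : ∃ q ∈ nA G M a, Near G M q u
    · exact Or.inl h3
    · refine Or.inr (mem_Yy.2 ⟨hu, h, fun v hv => ?_⟩)
      rcases U_z hm ha hu hv with h4 | ⟨q, hq, h4⟩
      · exact h4
      · exact absurd ⟨q, hq, v, h4, Or.inr ⟨h, (mem_nA.1 hv).1.symm⟩⟩ h3

/-- the siblings -/
theorem sib_two (hG : G.IsRegularOfDegree 3) (hm : MinPk G M) {q s t x : V} (h1 : Sib G M q s)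
    (h2 : Sib G M q t) (h3 : s ≠ t) (h4 : Sib G M q x) : x = s ∨ x = t := by
  obtain ⟨e1, m, k1, a1, b1⟩ := h1
  obtain ⟨e2, n, k2, a2, b2⟩ := h2
  obtain ⟨e4, k, k4, a4, b4⟩ := h4
  obtain rfl := hm.uniq k1 k2 a1 a2
  obtain rfl := hm.uniq k1 k4 a1 a4
  by_contra hcon
  push Not at hcon
  have h5 : ({q, s, t, x} : Finset V) ⊆ G.neighborFinset m := by
    intro y hy
    simp only [mem_insert, mem_singleton] at hy
    rw [SimpleGraph.mem_neighborFinset]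
    rcases hy with rfl | rfl | rfl | rfl <;> assumption
  have h6 := card_le_card h5
  rw [SimpleGraph.card_neighborFinset_eq_degree, hG m, card_insert_of_notMem, card_insert_of_notMem,
    card_pair hcon.2.symm] at h6
  · omega
  · simp only [mem_insert, mem_singleton, not_or]
    exact ⟨h3, hcon.1.symm⟩
  · simp only [mem_insert, mem_singleton, not_or]
    exact ⟨e1, e2, e4⟩

/-- a full arm is not released -/
theorem full_not (hG : G.IsRegularOfDegree 3) (hm : MinPk G M) (hs : NoShort G) {a u : V} (ha : a ∈ Ar G M)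
    (hu : u ∈ UU G M a) (h : u ∈ Ar G M) (hz : nZ G M u = ∅) : False := by
  obtain ⟨c, hc, hca⟩ := mem_Ar.1 ha
  obtain ⟨m, h1, h2⟩ := mem_Ar.1 h
  obtain ⟨q, hq, h3, h4⟩ := U_arm hm hc hca hu h1 h2
  have hcard := card_two hG hm h
  rw [hz, card_empty, add_zero] at hcard
  obtain ⟨v, w, hvw, hvw2⟩ := card_eq_two.1 hcard
  have hv : v ∈ nA G M u := by rw [hvw2]; simp
  have hw : w ∈ nA G M u := by rw [hvw2]; simp
  have key : ∀ x ∈ nA G M u, ∀ k ∈ M, G.Adj k x → ∃ r ∈ nA G M a, r ≠ q ∧ G.Adj k r := by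
    intro x hx k hk hkx
    obtain ⟨hx1, hx2⟩ := mem_nA.1 hx
    rcases U_nbr hm hc hca hu hx1 hk hkx with rfl | ⟨r, hr, h5⟩
    · exfalso
      refine hs.c6 u x k a q m hx1 hkx.symm hca (mem_nA.1 hq).1 h3.symm h2 ?_ ?_ ?_ ?_ h4 ?_
      · exact fun e => U_notM hu (e ▸ hk)
      · exact fun e => U_nadj hu (e ▸ hx1)
      · exact fun e => hm.notMem h1 h3 (e ▸ hk)
      · exact fun e => hm.notMem hc hca (e ▸ h1)
      · exact fun e => hm.notMem hk hkx (e ▸ h1)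
    · refine ⟨r, hr, fun e => ?_, h5⟩
      subst e
      obtain rfl := hm.uniq h1 hk h3 h5
      exact hs.t3 m u x h2 hx1 hkx.symm
  obtain ⟨k, hk, hkv⟩ := mem_Ar.1 (mem_nA.1 hv).2
  obtain ⟨l, hl, hlw⟩ := mem_Ar.1 (mem_nA.1 hw).2
  obtain ⟨r, hr, hrq, hkr⟩ := key v hv k hk hkv
  obtain ⟨t, ht, htq, hlt⟩ := key w hw l hl hlw
  have hrt : r = t := by
    by_contra hne
    have h5 : ({q, r, t} : Finset V) ⊆ nA G M a := by
      intro y hy
      simp only [mem_insert, mem_singleton] at hy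
      rcases hy with rfl | rfl | rfl <;> assumption
    have h6 := card_le_card h5
    rw [card_eq_three.2 ⟨q, r, t, hrq.symm, htq.symm, hne, rfl⟩] at h6
    have := nA_le hG hm ha
    omega
  subst hrt
  obtain rfl := hm.uniq hk hl hkr hlt
  exact hs.c4 u v k w (mem_nA.1 hv).1 hkv.symm hlw (mem_nA.1 hw).1.symm (fun e => U_notM hu (e ▸ hk)) hvw

end MinPk

end EF18
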