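import Pool.Agent.Lib.MP_ef18bd_co.X.Kthree

/-!
# The Petersen graph: girth five, and the two numbers differ
-/

namespace EF18

open Finset

/-- the Petersen graph: outer cycle on 0, .., 4, inner vertices 5, .., 9 joined in steps of two, and
the five edges between i and i + 5 -/
def Pet : SimpleGraph (Fin 10) :=
  SimpleGraph.fromRel fun a b => b.val = a.val + 5 ∨
    (a.val < 5 ∧ b.val < 5 ∧ b.val = (a.val + 1) % 5) ∨
    (5 ≤ a.val ∧ 5 ≤ b.val ∧ b.val % 5 = (a.val + 2) % 5)

instance : DecidableRel Pet.Adj := fun a b => by
  unfold Pet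
  simp only [SimpleGraph.fromRel_adj]
  infer_instance

/-- a graph without triangles and without cycles of length four has girth at least five -/
theorem five_le_egirth {V : Type} {G : SimpleGraph V}
    (h3 : ∀ a b c, G.Adj a b → G.Adj b c → ¬ G.Adj c a)
    (h4 : ∀ a b c d, G.Adj a b → G.Adj b c → G.Adj c d → G.Adj d a → a = c ∨ b = d) :
    5 ≤ G.egirth := by
  rw [SimpleGraph.le_egirth]
  intro a w hw
  by_contra hlt
  have hl3 := hw.three_le_length
  have hl : w.length < 5 := by exact_mod_cast not_le.1 hlt
  have hn := hw.support_nodup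
  cases w with
  | nil => simp at hl3
  | cons e1 w =>
    cases w with
    | nil => simp at hl3
    | cons e2 w =>
      cases w with
      | nil => simp at hl3
      | cons e3 w =>
        cases w with
        | nil => exact h3 _ _ _ e1 e2 e3
        | cons e4 w =>
          cases w with
          | nil =>
            rcases h4 _ _ _ _ e1 e2 e3 e4 with h | h
            · subst h
              simp at hn
            · subst h
              simp at hn
          | cons e5 w =>
            simp at hl
            omega

theorem pet_cubic : Pet.IsRegularOfDegree 3 := by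
  intro v
  rw [← SimpleGraph.card_neighborFinset_eq_degree]
  revert v
  decide

theorem pet_girth : 5 ≤ Pet.egirth :=
  five_le_egirth (by decide) (by decide)

theorem pet_rest (v : Fin 10) : (univ \ cn Pet v).card = 6 := by
  revert v
  decide

theorem pet_minus_le : upperMinus Pet ≤ 7 := by
  obtain ⟨f, hf, hw⟩ := (attained pet_cubic).1
  rw [hw]
  by_contra hcon
  push Not at hcon
  obtain ⟨v, hv⟩ : ∃ v, -1 < f v := by
    by_contra h
    push Not at h
    have := sum_nonpos (fun v (_ : v ∈ (univ : Finset (Fin 10))) => (h v).trans (by norm_num))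
    omega
  obtain ⟨u, -, hu⟩ := exists_tight hf hv
  have h1 : ∑ w, f w = ∑ w ∈ univ \ cn Pet u, f w + ∑ w ∈ cn Pet u, f w :=
    (sum_sdiff (subset_univ _)).symm
  have h2 : ∑ w ∈ univ \ cn Pet u, f w ≤ (univ \ cn Pet u).card • (1 : ℤ) :=
    sum_le_card_nsmul _ _ _ fun w _ => by
      rcases hf.1.1 w with h | h | h <;> omega
  rw [pet_rest, show (6 : ℕ) • (1 : ℤ) = 6 by norm_num] at h2
  omega

theorem pet_signed_ge : 8 ≤ upperSigned Pet := by
  have h := le_upperSigned pet_cubic (S := {0}) (by unfold Pk; decide)
    (by unfold Mx; decide)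
  simpa using h

/-- on the Petersen graph the upper minus number is smaller -/
theorem pet_lt : upperMinus Pet < upperSigned Pet :=
  lt_of_le_of_lt pet_minus_le (lt_of_lt_of_le (by norm_num) pet_signed_ge)

end EF18
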