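import Pool.Agent.Lib.MP_ef18bd_co.X.Loc

/-!
# Payments of the arms of one member of a minimum maximal packing
-/

set_option linter.unusedSectionVars false

namespace EF18

open Finset MinPk

variable {V : Type} [Fintype V] [DecidableEq V] {G : SimpleGraph V} [DecidableRel G.Adj] {M : Finset V}

/-- the exchange at `a` releases a vertex near the siblings of `q` -/
def Xx (G : SimpleGraph V) [DecidableRel G.Adj] (M : Finset V) (q a : V) : Prop :=
  ∃ u ∈ UU G M a, Near G M q u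

/-- the special case in which `q` pays twice -/
def Sp (G : SimpleGraph V) [DecidableRel G.Adj] (M : Finset V) (q a : V) : Prop :=
  (∀ s, Sib G M q s → (nZ G M s).Nonempty) ∧ ∃ z ∈ UU G M a, z ∈ Zz G M ∧
    (∃ s, Sib G M q s ∧ G.Adj s z) ∧ ∀ v ∈ nA G M z, Sib G M q v ∨ Sib G M a v

theorem Sib.mem_Ar {q s : V} (h : Sib G M q s) : s ∈ Ar G M := by
  obtain ⟨-, m, h1, -, h3⟩ := h
  exact EF18.mem_Ar.2 ⟨m, h1, h3⟩

theorem Sib.mem_Ar' {q s : V} (h : Sib G M q s) : q ∈ Ar G M := h.symm.mem_Ar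

theorem Sp.xx {q a : V} (h : Sp G M q a) : Xx G M q a := by
  obtain ⟨-, z, hz, hz2, ⟨s, hs, hsz⟩, -⟩ := h
  exact ⟨z, hz, s, hs, Or.inr ⟨hz2, hsz⟩⟩

namespace MinPk

theorem sp_of (hG : G.IsRegularOfDegree 3) (hm : MinPk G M) (hs : NoShort G) {a q1 q2 : V}
    (ha : a ∈ Ar G M) (h1 : q1 ∈ nA G M a) (h2 : q2 ∈ nA G M a) (h12 : q1 ≠ q2)
    (hall : ∀ q ∈ nA G M a, q = q1 ∨ q = q2) (hX2 : ¬Xx G M q2 a) (hY : Yy G M a = ∅) : Sp G M q1 a := by
  have hnear : ∀ u ∈ UU G M a, Near G M q1 u := by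
    intro u hu
    rcases U_split hm ha hu with ⟨q, hq, h⟩ | h
    · rcases hall q hq with rfl | rfl
      · exact h
      · exact absurd ⟨u, hu, h⟩ hX2
    · rw [hY] at h
      exact absurd h (notMem_empty u)
  have hc3 : 3 ≤ (RR G M a).card := card_RR2 hm hs ha h1 h2 h12
  have haM := hm.ar_notMem ha
  obtain ⟨u, hu⟩ := hm.exch1 haM (by omega)
  by_cases hA : ∃ z ∈ UU G M a, z ∈ Zz G M
  · obtain ⟨z, hz, hzZ⟩ := hA
    obtain ⟨s, hqs, h3⟩ := hnear z hz
    have hsz : G.Adj s z := by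
      rcases h3 with rfl | h3
      · exact absurd hqs.mem_Ar (zz_notAr hzZ)
      · exact h3.2
    refine ⟨?_, z, hz, hzZ, ⟨s, hqs, hsz⟩, ?_⟩
    · intro s' hs'
      rw [nonempty_iff_ne_empty]
      intro hemp
      have hne : s ≠ s' := by
        rintro rfl
        have : z ∈ nZ G M s := mem_nZ.2 ⟨hsz, hzZ⟩
        rw [hemp] at this
        exact notMem_empty z this
      obtain ⟨w, hw, hwz⟩ := hm.exch2 haM hc3 hz
      obtain ⟨t, ht, h4⟩ := hnear w hw
      rcases sib_two hG hm hqs hs' hne ht with rfl | rfl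
      · rcases h4 with rfl | h4
        · exact hwz (b2_adj hsz)
        · exact hwz (b2_mid h4.2 hsz)
      · rcases h4 with rfl | h4
        · exact full_not hG hm hs ha hw ht.mem_Ar hemp
        · have : w ∈ nZ G M t := mem_nZ.2 ⟨h4.2, h4.1⟩
          rw [hemp] at this
          exact notMem_empty w this
    · intro v hv
      rcases U_z hm ha hz hv with h4 | ⟨q, hq, h4⟩
      · exact Or.inr h4
      · rcases hall q hq with rfl | rfl
        · exact Or.inl h4
        · exact absurd ⟨z, hz, v, h4, Or.inr ⟨hzZ, (mem_nA.1 hv).1.symm⟩⟩ hX2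
  · exfalso
    have harm : ∀ u ∈ UU G M a, Sib G M q1 u := by
      intro u hu
      obtain ⟨s, hqs, h3⟩ := hnear u hu
      rcases h3 with rfl | h3
      · exact hqs
      · exact absurd ⟨u, hu, h3.1⟩ hA
    obtain ⟨w, hw, hwu⟩ := hm.exch2 haM hc3 hu
    obtain ⟨-, m, hm1, e1, e2⟩ := harm u hu
    obtain ⟨-, n, hn1, e3, e4⟩ := harm w hw
    obtain rfl := hm.uniq hm1 hn1 e1 e3
    exact hwu (b2_mid e4 e2)

open scoped Classical in
theorem pay (hG : G.IsRegularOfDegree 3) (hm : MinPk G M) (hs : NoShort G) {a : V} (ha : a ∈ Ar G M) :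
    (nA G M a).card ≤ ∑ q ∈ nA G M a, ((if Xx G M q a then 1 else 0) + (if Sp G M q a then 1 else 0)) +
      (Yy G M a).card := by
  have haM := hm.ar_notMem ha
  have h2 := nA_le hG hm ha
  obtain h0 | h0 | h0 : (nA G M a).card = 0 ∨ (nA G M a).card = 1 ∨ (nA G M a).card = 2 := by omega
  · omega
  · obtain ⟨q, hq⟩ := card_eq_one.1 h0
    have hq2 : q ∈ nA G M a := by rw [hq]; simp
    obtain ⟨u, hu⟩ := hm.exch1 haM (card_RR1 hs ha hq2)
    rw [h0, hq, sum_singleton]
    rcases U_split hm ha hu with ⟨q', hq', h⟩ | h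
    · rw [hq, mem_singleton] at hq'
      subst hq'
      rw [if_pos ⟨u, hu, h⟩]
      omega
    · have := card_pos.2 ⟨u, h⟩
      omega
  · obtain ⟨q1, q2, h12, hq⟩ := card_eq_two.1 h0
    have hq1 : q1 ∈ nA G M a := by rw [hq]; simp
    have hq2 : q2 ∈ nA G M a := by rw [hq]; simp
    have hall : ∀ q ∈ nA G M a, q = q1 ∨ q = q2 := by
      intro q hq'
      rw [hq] at hq'
      simpa using hq'
    have hc3 : 3 ≤ (RR G M a).card := card_RR2 hm hs ha hq1 hq2 h12
    rw [h0, hq, sum_pair h12]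
    by_cases hX1 : Xx G M q1 a <;> by_cases hX2 : Xx G M q2 a
    · rw [if_pos hX1, if_pos hX2]
      omega
    · rw [if_pos hX1]
      rcases (Yy G M a).eq_empty_or_nonempty with hY | hY
      · rw [if_pos (sp_of hG hm hs ha hq1 hq2 h12 hall hX2 hY)]
        omega
      · have := card_pos.2 hY
        omega
    · rw [if_pos hX2]
      rcases (Yy G M a).eq_empty_or_nonempty with hY | hY
      · rw [if_pos (sp_of hG hm hs ha hq2 hq1 h12.symm (fun q h => (hall q h).symm) hX1 hY)]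
        omega
      · have := card_pos.2 hY
        omega
    · have hsub : ∀ u ∈ UU G M a, u ∈ Yy G M a := by
        intro u hu
        rcases U_split hm ha hu with ⟨q, hq', h⟩ | h
        · rcases hall q hq' with rfl | rfl
          · exact absurd ⟨u, hu, h⟩ hX1
          · exact absurd ⟨u, hu, h⟩ hX2
        · exact h
      obtain ⟨u, hu⟩ := hm.exch1 haM (by omega)
      obtain ⟨w, hw, hwu⟩ := hm.exch2 haM hc3 hu
      have h3 : ({u, w} : Finset V) ⊆ Yy G M a := by
        intro x hx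
        rw [mem_insert, mem_singleton] at hx
        rcases hx with rfl | rfl
        · exact hsub _ hu
        · exact hsub _ hw
      have h4 := card_le_card h3
      rw [card_pair (fun h => hwu (by rw [h]; exact self_mem_B2))] at h4
      omega

/-- an arm which pays has a sibling with a neighbour at distance two -/
theorem xx_sib (hG : G.IsRegularOfDegree 3) (hm : MinPk G M) (hs : NoShort G) {a q : V} (ha : a ∈ Ar G M)
    (h : Xx G M q a) : ∃ s, Sib G M q s ∧ (nZ G M s).Nonempty := by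
  obtain ⟨u, hu, s, hqs, h2⟩ := h
  refine ⟨s, hqs, ?_⟩
  rcases h2 with rfl | h2
  · rw [nonempty_iff_ne_empty]
    exact fun h3 => full_not hG hm hs ha hu hqs.mem_Ar h3
  · exact ⟨u, mem_nZ.2 ⟨h2.2, h2.1⟩⟩

/-- at most one neighbour among the siblings -/
theorem sib_one (hm : MinPk G M) (hs : NoShort G) {q z v w : V} (hz : z ∉ M) (h1 : G.Adj z v)
    (h2 : G.Adj z w) (h3 : Sib G M q v) (h4 : Sib G M q w) : v = w := by
  by_contra hne
  obtain ⟨-, m, hm1, e1, e2⟩ := h3
  obtain ⟨-, n, hn1, e3, e4⟩ := h4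
  obtain rfl := hm.uniq hm1 hn1 e1 e3
  exact hs.c4 z v m w h1 e2.symm e4 h2.symm (fun h => hz (h ▸ hm1)) hne

theorem sp_card (hm : MinPk G M) (hs : NoShort G) {q a z : V} (hz : z ∈ Zz G M)
    (h : ∀ v ∈ nA G M z, Sib G M q v ∨ Sib G M a v) : (nA G M z).card ≤ 2 := by
  by_contra hcon
  push Not at hcon
  obtain ⟨x, hx, y, hy, w, hw, hxy, hxw, hyw⟩ := two_lt_card.1 hcon
  have hzM := (mem_Zz.1 hz).1
  have ax := (mem_nA.1 hx).1
  have ay := (mem_nA.1 hy).1
  have aw := (mem_nA.1 hw).1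
  rcases h x hx with h1 | h1 <;> rcases h y hy with h2 | h2 <;> rcases h w hw with h3 | h3
  · exact hxy (sib_one hm hs hzM ax ay h1 h2)
  · exact hxy (sib_one hm hs hzM ax ay h1 h2)
  · exact hxw (sib_one hm hs hzM ax aw h1 h3)
  · exact hyw (sib_one hm hs hzM ay aw h2 h3)
  · exact hyw (sib_one hm hs hzM ay aw h2 h3)
  · exact hxw (sib_one hm hs hzM ax aw h1 h3)
  · exact hxy (sib_one hm hs hzM ax ay h1 h2)
  · exact hxy (sib_one hm hs hzM ax ay h1 h2)

end MinPk

end EF18
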