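import Pool.Agent.Lib.MP_ef18bd_co.X.Star

/-!
# The arms of one member of a minimum maximal packing: the local inequality
-/

set_option linter.unusedSectionVars false

namespace EF18

open Finset MinPk

variable {V : Type} [Fintype V] [DecidableEq V] {G : SimpleGraph V} [DecidableRel G.Adj] {M : Finset V}

/-- weights of the vertices at distance two -/
def wt (j : ℕ) : ℕ := if j = 1 then 3 else if j = 2 then 2 else 1

theorem one_le_wt (j : ℕ) : 1 ≤ wt j := by
  unfold wt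
  split_ifs <;> omega

theorem wt_two {j : ℕ} (h0 : 1 ≤ j) (h : j ≤ 2) : 2 ≤ wt j := by
  unfold wt
  split_ifs <;> omega

/-- total weight next to `p` -/
def Ws (G : SimpleGraph V) [DecidableRel G.Adj] (M : Finset V) (p : V) : ℕ :=
  ∑ z ∈ nZ G M p, wt (nA G M z).card

theorem card_le_Ws (p : V) : (nZ G M p).card ≤ Ws G M p := by
  unfold Ws
  rw [card_eq_sum_ones]
  exact sum_le_sum (fun z _ => one_le_wt _)

theorem card_lt_Ws {p z : V} (hz : z ∈ nZ G M p) (h : 2 ≤ wt (nA G M z).card) :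
    (nZ G M p).card + 1 ≤ Ws G M p := by
  unfold Ws
  rw [card_eq_sum_ones, ← add_sum_erase _ _ hz, ← add_sum_erase (nZ G M p) _ hz]
  have : ∑ x ∈ (nZ G M p).erase z, 1 ≤ ∑ x ∈ (nZ G M p).erase z, wt (nA G M x).card :=
    sum_le_sum (fun z _ => one_le_wt _)
  omega

open scoped Classical in
noncomputable def cX (G : SimpleGraph V) [DecidableRel G.Adj] (M : Finset V) (p : V) : ℕ :=
  ((nA G M p).filter (fun a => Xx G M p a)).card

open scoped Classical in
noncomputable def cS (G : SimpleGraph V) [DecidableRel G.Adj] (M : Finset V) (p : V) : ℕ :=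
  ((nA G M p).filter (fun a => Sp G M p a)).card

theorem cX_le (p : V) : cX G M p ≤ (nA G M p).card := by
  classical
  exact card_le_card (filter_subset _ _)

theorem cS_le (p : V) : cS G M p ≤ (nA G M p).card := by
  classical
  exact card_le_card (filter_subset _ _)

/-- a member of the packing with its three arms -/
structure Str (G : SimpleGraph V) (M : Finset V) (m p q r : V) : Prop where
  cm : m ∈ M
  ap : G.Adj m p
  aq : G.Adj m q
  ar : G.Adj m r
  npq : p ≠ q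
  npr : p ≠ r
  nqr : q ≠ r

namespace Str

variable {m p q r : V}

theorem rot (h : Str G M m p q r) : Str G M m q r p := ⟨h.cm, h.aq, h.ar, h.ap, h.nqr, h.npq.symm, h.npr.symm⟩
theorem sw (h : Str G M m p q r) : Str G M m p r q := ⟨h.cm, h.ap, h.ar, h.aq, h.npr, h.npq, h.nqr.symm⟩

theorem sib (h : Str G M m p q r) : Sib G M p q := ⟨h.npq, m, h.cm, h.ap, h.aq⟩

theorem arm (h : Str G M m p q r) : p ∈ Ar G M := mem_Ar.2 ⟨m, h.cm, h.ap⟩

theorem cases (hG : G.IsRegularOfDegree 3) (hm : MinPk G M) (h : Str G M m p q r) {s : V}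
    (hs : Sib G M p s) : s = q ∨ s = r := sib_two hG hm h.sib h.sw.sib h.nqr hs

/-- payments need a vertex at distance two next to a sibling -/
theorem cX_pos (hG : G.IsRegularOfDegree 3) (hm : MinPk G M) (hs : NoShort G) (h : Str G M m p q r)
    (h1 : 1 ≤ cX G M p) : 1 ≤ (nZ G M q).card + (nZ G M r).card := by
  classical
  obtain ⟨a, ha⟩ := card_pos.1 h1
  rw [mem_filter] at ha
  obtain ⟨s, hs1, hs2⟩ := xx_sib hG hm hs (mem_nA.1 ha.1).2 ha.2
  have h3 := card_pos.2 hs2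
  rcases h.cases hG hm hs1 with rfl | rfl <;> omega

/-- the special vertex of a double payment -/
theorem sp_z (hG : G.IsRegularOfDegree 3) (hm : MinPk G M) (hs : NoShort G) (h : Str G M m p q r)
    {a : V} (h1 : Sp G M p a) : 1 ≤ (nZ G M q).card ∧ 1 ≤ (nZ G M r).card ∧
      ∃ z, (z ∈ nZ G M q ∨ z ∈ nZ G M r) ∧ 2 ≤ wt (nA G M z).card ∧
        ∀ v ∈ nA G M z, Sib G M p v ∨ Sib G M a v := by
  obtain ⟨h2, z, hz, hzZ, ⟨s, hs1, hs2⟩, h3⟩ := h1
  refine ⟨card_pos.2 (h2 q h.sib), card_pos.2 (h2 r h.sw.sib), z, ?_, ?_, h3⟩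
  · rcases h.cases hG hm hs1 with rfl | rfl
    · exact Or.inl (mem_nZ.2 ⟨hs2, hzZ⟩)
    · exact Or.inr (mem_nZ.2 ⟨hs2, hzZ⟩)
  · exact wt_two (card_pos.2 (nA_nonempty hm hzZ)) (sp_card hm hs hzZ h3)

theorem cS_pos (hG : G.IsRegularOfDegree 3) (hm : MinPk G M) (hs : NoShort G) (h : Str G M m p q r)
    (h1 : 1 ≤ cS G M p) : 1 ≤ (nZ G M q).card ∧ 1 ≤ (nZ G M r).card ∧
      (nZ G M q).card + (nZ G M r).card + 1 ≤ Ws G M q + Ws G M r := by
  classical
  obtain ⟨a, ha⟩ := card_pos.1 h1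
  rw [mem_filter] at ha
  obtain ⟨e1, e2, z, hz, hw, -⟩ := h.sp_z hG hm hs ha.2
  refine ⟨e1, e2, ?_⟩
  have k1 := card_le_Ws (G := G) (M := M) q
  have k2 := card_le_Ws (G := G) (M := M) r
  rcases hz with hz | hz
  · have := card_lt_Ws hz hw
    omega
  · have := card_lt_Ws hz hw
    omega

theorem cS_two (hG : G.IsRegularOfDegree 3) (hm : MinPk G M) (hs : NoShort G) (h : Str G M m p q r)
    (h1 : 2 ≤ cS G M p) (hq : (nZ G M q).card = 1) (hr : (nZ G M r).card = 1) :
    4 ≤ Ws G M q + Ws G M r := by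
  classical
  by_contra hcon
  push Not at hcon
  have h2 : 1 < ((nA G M p).filter (fun a => Sp G M p a)).card := h1
  obtain ⟨a, ha, b, hb, hab⟩ := one_lt_card.1 h2
  rw [mem_filter] at ha hb
  obtain ⟨-, -, z, hz, hw, hz3⟩ := h.sp_z hG hm hs ha.2
  obtain ⟨-, -, y, hy, hw', hy3⟩ := h.sp_z hG hm hs hb.2
  have k1 := card_le_Ws (G := G) (M := M) q
  have k2 := card_le_Ws (G := G) (M := M) r
  have hzy : z = y := by
    rcases hz with hz | hz <;> rcases hy with hy | hy
    · exact card_le_one.1 hq.le z hz y hy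
    · have e1 := card_lt_Ws hz hw
      have e2 := card_lt_Ws hy hw'
      omega
    · have e1 := card_lt_Ws hz hw
      have e2 := card_lt_Ws hy hw'
      omega
    · exact card_le_one.1 hr.le z hz y hy
  subst hzy
  -- the weight is two
  have hzZ : z ∈ Zz G M := by
    rcases hz with hz | hz
    · exact (mem_nZ.1 hz).2
    · exact (mem_nZ.1 hz).2
  have hzM := (mem_Zz.1 hzZ).1
  have hwe : wt (nA G M z).card ≤ 2 := by
    rcases hz with hz | hz
    · have : Ws G M q = wt (nA G M z).card := by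
        obtain ⟨x, hx⟩ := card_eq_one.1 hq
        unfold Ws
        rw [hx] at hz ⊢
        rw [mem_singleton] at hz
        rw [sum_singleton, hz]
      omega
    · have : Ws G M r = wt (nA G M z).card := by
        obtain ⟨x, hx⟩ := card_eq_one.1 hr
        unfold Ws
        rw [hx] at hz ⊢
        rw [mem_singleton] at hz
        rw [sum_singleton, hz]
      omega
  have hj : 2 ≤ (nA G M z).card := by
    have := card_pos.2 (nA_nonempty hm hzZ)
    unfold wt at hwe
    split_ifs at hwe <;> omega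
  obtain ⟨v, hv, w, hw2, hvw⟩ := one_lt_card.1 hj
  have av := (mem_nA.1 hv).1
  have aw := (mem_nA.1 hw2).1
  -- one of `v`, `w` is not a sibling of `p`
  obtain ⟨x, hx, hx2⟩ : ∃ x ∈ nA G M z, ¬Sib G M p x := by
    by_cases hpv : Sib G M p v
    · exact ⟨w, hw2, fun hpw => hvw (sib_one hm hs hzM av aw hpv hpw)⟩
    · exact ⟨v, hv, hpv⟩
  have hxa := (hz3 x hx).resolve_left hx2
  have hxb := (hy3 x hx).resolve_left hx2
  obtain ⟨-, n, hn, e1, e2⟩ := hxa
  obtain ⟨-, k, hk, e3, e4⟩ := hxb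
  obtain rfl := hm.uniq hn hk e2 e4
  exact hs.c4 p a n b (mem_nA.1 ha.1).1 e1.symm e3 (mem_nA.1 hb.1).1.symm
    (fun e => hm.ar_notMem h.arm (e ▸ hn)) hab

/-- the released vertices next to a bare pair of siblings -/
theorem bare (hG : G.IsRegularOfDegree 3) (hm : MinPk G M) (hs : NoShort G) (h : Str G M m p q r)
    {z a : V} (hp : nZ G M p = {z}) (hr : nZ G M r = ∅) (ha : a ∈ nA G M q) (hX : Xx G M q a) :
    p ∈ UU G M a ∨ z ∈ UU G M a := by
  obtain ⟨u, hu, s, hqs, h2⟩ := hX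
  rcases h.rot.cases hG hm hqs with rfl | rfl
  · rcases h2 with rfl | h2
    · exact absurd hr (fun h3 => full_not hG hm hs (mem_nA.1 ha).2 hu hqs.mem_Ar h3)
    · have : u ∈ nZ G M s := mem_nZ.2 ⟨h2.2, h2.1⟩
      rw [hr] at this
      exact absurd this (notMem_empty u)
  · rcases h2 with rfl | h2
    · exact Or.inl hu
    · have : u ∈ nZ G M s := mem_nZ.2 ⟨h2.2, h2.1⟩
      rw [hp, mem_singleton] at this
      exact Or.inr (this ▸ hu)

/-- the arm `p` is released at most once -/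
theorem rel_p (hm : MinPk G M) (hs : NoShort G) (h : Str G M m p q r) {f a b : V} (hf : f ∈ nA G M p)
    (ha : a ∈ nA G M q) (hb : b ∈ nA G M q) (hab : a ≠ b) (h1 : p ∈ UU G M a) (h2 : p ∈ UU G M b) :
    False := by
  obtain ⟨hf1, hf2⟩ := mem_nA.1 hf
  obtain ⟨k, hk, hkf⟩ := mem_Ar.1 hf2
  have haM := hm.ar_notMem (mem_nA.1 ha).2
  have hbM := hm.ar_notMem (mem_nA.1 hb).2
  have hpM := hm.notMem h.cm h.ap
  have hqM := hm.notMem h.cm h.aq
  have key : ∀ x ∈ nA G M q, p ∈ UU G M x → ∃ y ∈ nA G M x, G.Adj k y ∧ y ≠ q := by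
    intro x hx hpx
    obtain ⟨c, hc, hcx⟩ := mem_Ar.1 (mem_nA.1 hx).2
    rcases U_nbr hm hc hcx hpx hf1 hk hkf with rfl | ⟨y, hy, hky⟩
    · exfalso
      refine hs.c6 p f k x q m hf1 hkf.symm hcx (mem_nA.1 hx).1.symm h.aq.symm h.ap ?_ ?_ ?_ ?_ ?_ ?_
      · exact fun e => hpM (e ▸ hk)
      · rintro rfl
        exact U_nadj hpx hf1
      · exact fun e => hqM (e ▸ hk)
      · exact fun e => hm.ar_notMem (mem_nA.1 hx).2 (e ▸ h.cm)
      · exact h.npq.symm
      · exact fun e => hm.ar_notMem hf2 (e ▸ h.cm)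
    · refine ⟨y, hy, hky, ?_⟩
      rintro rfl
      obtain rfl := hm.uniq hk h.cm hky h.aq
      exact hs.t3 p f k hf1 hkf.symm h.ap
  obtain ⟨y, hy, hky, hyq⟩ := key a ha h1
  obtain ⟨x, hx, hkx, hxq⟩ := key b hb h2
  have aqa := (mem_nA.1 ha).1
  have aqb := (mem_nA.1 hb).1
  have aay := (mem_nA.1 hy).1
  have abx := (mem_nA.1 hx).1
  by_cases hyx : y = x
  · subst hyx
    exact hs.c4 a y b q aay abx.symm aqb.symm aqa hab hyq
  · refine hs.c6 a y k x b q aay hky.symm hkx abx.symm aqb.symm aqa ?_ hyx ?_ hxq hab.symm hyq.symm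
    · exact fun e => haM (e ▸ hk)
    · exact fun e => hbM (e ▸ hk)

/-- the centres seen by a released vertex with three arms -/
theorem half (hG : G.IsRegularOfDegree 3) (hm : MinPk G M) (hs : NoShort G) (h : Str G M m p q r)
    {z a s t k l : V} (hz : z ∈ Zz G M) (hzp : p ∈ nA G M z) (hzs : s ∈ nA G M z) (hzt : t ∈ nA G M z)
    (hps : p ≠ s) (hpt : p ≠ t) (hst : s ≠ t) (ha : a ∈ nA G M q) (h1 : z ∈ UU G M a) (hk : k ∈ M)
    (hks : G.Adj k s) (hl : l ∈ M) (hlt : G.Adj l t) :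
    (G.Adj k a ∧ ∃ y ∈ nA G M a, G.Adj l y) ∨ (G.Adj l a ∧ ∃ y ∈ nA G M a, G.Adj k y) := by
  obtain ⟨c, hc, hca⟩ := mem_Ar.1 (mem_nA.1 ha).2
  have hzM := (mem_Zz.1 hz).1
  have azp := (mem_nA.1 hzp).1
  have azs := (mem_nA.1 hzs).1
  have azt := (mem_nA.1 hzt).1
  have hkl : k ≠ l := by
    rintro rfl
    exact hs.c4 z s k t azs hks.symm hlt azt.symm (fun e => hzM (e ▸ hk)) hst
  rcases U_nbr hm hc hca h1 azs hk hks with rfl | ⟨y, hy, hky⟩
  · rcases U_nbr hm hc hca h1 azt hl hlt with rfl | ⟨x, hx, hlx⟩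
    · exact absurd rfl hkl
    · exact Or.inl ⟨hca, x, hx, hlx⟩
  · rcases U_nbr hm hc hca h1 azt hl hlt with rfl | ⟨x, hx, hlx⟩
    · exact Or.inr ⟨hca, y, hy, hky⟩
    · exfalso
      have hyq : y ≠ q := by
        rintro rfl
        obtain rfl := hm.uniq hk h.cm hky h.aq
        exact hs.c4 z s k p azs hks.symm h.ap azp.symm (fun e => hzM (e ▸ hk)) hps.symm
      have hxq : x ≠ q := by
        rintro rfl
        obtain rfl := hm.uniq hl h.cm hlx h.aq
        exact hs.c4 z t l p azt hlt.symm h.ap azp.symm (fun e => hzM (e ▸ hl)) hpt.symm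
      have hqa : q ∈ nA G M a := mem_nA.2 ⟨(mem_nA.1 ha).1.symm, h.rot.arm⟩
      have hxy : y = x := by
        by_contra hne
        have h5 : ({q, y, x} : Finset V) ⊆ nA G M a := by
          intro w hw
          simp only [mem_insert, mem_singleton] at hw
          rcases hw with rfl | rfl | rfl <;> assumption
        have h6 := card_le_card h5
        rw [card_eq_three.2 ⟨q, y, x, hyq.symm, hxq.symm, hne, rfl⟩] at h6
        have := nA_le hG hm (mem_nA.1 ha).2
        omega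
      subst hxy
      exact hkl (hm.uniq hk hl hky hlx)

/-- the vertex `z` is not released on both sides -/
theorem rel_z (hG : G.IsRegularOfDegree 3) (hm : MinPk G M) (hs : NoShort G) (h : Str G M m p q r)
    {z a b : V} (hz : z ∈ Zz G M) (hzp : p ∈ nA G M z) (hj : 3 ≤ (nA G M z).card)
    (ha : a ∈ nA G M q) (hb : b ∈ nA G M r) (h1 : z ∈ UU G M a) (h2 : z ∈ UU G M b) : False := by
  have hj2 : 2 ≤ ((nA G M z).erase p).card := by
    rw [card_erase_of_mem hzp]
    omega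
  obtain ⟨s, hs1, t, ht1, hst⟩ := one_lt_card.1 hj2
  obtain ⟨hsp, hzs⟩ := mem_erase.1 hs1
  obtain ⟨htp, hzt⟩ := mem_erase.1 ht1
  obtain ⟨k, hk, hks⟩ := mem_Ar.1 (mem_nA.1 hzs).2
  obtain ⟨l, hl, hlt⟩ := mem_Ar.1 (mem_nA.1 hzt).2
  have haM := hm.ar_notMem (mem_nA.1 ha).2
  have hbM := hm.ar_notMem (mem_nA.1 hb).2
  have hqM := hm.notMem h.cm h.aq
  have hrM := hm.notMem h.cm h.ar
  have aqa := (mem_nA.1 ha).1
  have arb := (mem_nA.1 hb).1
  have hab : a ≠ b := by
    rintro rfl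
    exact hs.c4 a q m r aqa.symm h.aq.symm h.ar arb (fun e => haM (e ▸ h.cm)) h.nqr
  -- no common centre
  have hcc : ∀ n ∈ M, G.Adj n a → G.Adj n b → False := by
    intro n hn e1 e2
    refine hs.c6 a n b r m q e1.symm e2 arb.symm h.ar.symm h.aq aqa hab ?_ ?_ ?_ ?_ ?_
    · exact fun e => hrM (e ▸ hn)
    · exact fun e => hbM (e ▸ h.cm)
    · exact h.nqr.symm
    · exact fun e => haM (e ▸ h.cm)
    · exact fun e => hqM (e ▸ hn)
  -- no crossing
  have hcr : ∀ n ∈ M, ∀ n' ∈ M, G.Adj n a → G.Adj n' b → (∃ y ∈ nA G M a, G.Adj n' y) →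
      (∃ y ∈ nA G M b, G.Adj n y) → False := by
    rintro n hn n' hn' e1 e2 ⟨y, hy, e3⟩ ⟨x, hx, e4⟩
    have aay := (mem_nA.1 hy).1
    have abx := (mem_nA.1 hx).1
    have hab5 : ¬G.Adj a b := fun e => hs.c5 a b r m q e arb.symm h.ar.symm h.aq aqa
    refine hs.c6 a y n' b x n aay e3.symm e2 abx e4.symm e1 ?_ ?_ ?_ ?_ ?_ ?_
    · exact fun e => haM (e ▸ hn')
    · rintro rfl
      exact hab5 aay
    · exact fun e => hm.ar_notMem (mem_nA.1 hx).2 (e ▸ hn')
    · exact fun e => hbM (e ▸ hn)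
    · rintro rfl
      exact hab5 abx.symm
    · exact fun e => hm.ar_notMem (mem_nA.1 hy).2 (e ▸ hn)
  rcases h.half hG hm hs hz hzp hzs hzt hsp.symm htp.symm hst ha h1 hk hks hl hlt with ⟨e1, e2⟩ | ⟨e1, e2⟩ <;>
    rcases h.sw.half hG hm hs hz hzp hzs hzt hsp.symm htp.symm hst hb h2 hk hks hl hlt with
      ⟨e3, e4⟩ | ⟨e3, e4⟩
  · exact hcc k hk e1 e3
  · exact hcr k hk l hl e1 e3 e2 e4
  · exact hcr l hl k hk e1 e3 e2 e4
  · exact hcc l hl e1 e3

theorem bare_sum (hG : G.IsRegularOfDegree 3) (hm : MinPk G M) (hs : NoShort G) (h : Str G M m p q r)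
    (hp : (nZ G M p).card = 1) (hW : Ws G M p = 1) (hq : (nZ G M q).card = 0) (hr : (nZ G M r).card = 0) :
    cX G M q + cX G M r ≤ 3 := by
  classical
  by_contra hcon
  push Not at hcon
  obtain ⟨z, hz⟩ := card_eq_one.1 hp
  have hz1 : z ∈ nZ G M p := by rw [hz]; simp
  obtain ⟨hz2, hz3⟩ := mem_nZ.1 hz1
  rw [card_eq_zero] at hq hr
  have aq := card_two hG hm h.rot.arm
  have ar := card_two hG hm h.rot.rot.arm
  have ap := card_two hG hm h.arm
  rw [hq, card_empty] at aq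
  rw [hr, card_empty] at ar
  rw [hp] at ap
  have k1 := cX_le (G := G) (M := M) q
  have k2 := cX_le (G := G) (M := M) r
  have hallq : ∀ a ∈ nA G M q, Xx G M q a := by
    have h5 : (nA G M q).filter (fun a => Xx G M q a) = nA G M q := by
      refine eq_of_subset_of_card_le (filter_subset _ _) ?_
      change _ ≤ cX G M q
      omega
    intro a ha
    rw [← h5, mem_filter] at ha
    exact ha.2
  have hallr : ∀ a ∈ nA G M r, Xx G M r a := by
    have h5 : (nA G M r).filter (fun a => Xx G M r a) = nA G M r := by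
      refine eq_of_subset_of_card_le (filter_subset _ _) ?_
      change _ ≤ cX G M r
      omega
    intro a ha
    rw [← h5, mem_filter] at ha
    exact ha.2
  obtain ⟨f, hf⟩ : (nA G M p).Nonempty := card_pos.1 (by omega)
  have hj : 3 ≤ (nA G M z).card := by
    have h6 : wt (nA G M z).card = 1 := by
      rw [← hW]
      unfold Ws
      rw [hz, sum_singleton]
    have h7 := card_pos.2 (nA_nonempty hm hz3)
    unfold wt at h6
    split_ifs at h6 <;> omega
  have hzp : p ∈ nA G M z := mem_nA.2 ⟨hz2.symm, h.arm⟩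
  obtain ⟨a, a', haa, ha⟩ := card_eq_two.1 (show (nA G M q).card = 2 by omega)
  obtain ⟨b, b', hbb, hb⟩ := card_eq_two.1 (show (nA G M r).card = 2 by omega)
  have ha1 : a ∈ nA G M q := by rw [ha]; simp
  have ha2 : a' ∈ nA G M q := by rw [ha]; simp
  have hb1 : b ∈ nA G M r := by rw [hb]; simp
  have hb2 : b' ∈ nA G M r := by rw [hb]; simp
  have hexq : ∃ x ∈ nA G M q, z ∈ UU G M x := by
    rcases h.bare hG hm hs hz hr ha1 (hallq a ha1) with e1 | e1
    · rcases h.bare hG hm hs hz hr ha2 (hallq a' ha2) with e2 | e2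
      · exact (h.rel_p hm hs hf ha1 ha2 haa e1 e2).elim
      · exact ⟨a', ha2, e2⟩
    · exact ⟨a, ha1, e1⟩
  have hexr : ∃ x ∈ nA G M r, z ∈ UU G M x := by
    rcases h.sw.bare hG hm hs hz hq hb1 (hallr b hb1) with e1 | e1
    · rcases h.sw.bare hG hm hs hz hq hb2 (hallr b' hb2) with e2 | e2
      · exact (h.sw.rel_p hm hs hf hb1 hb2 hbb e1 e2).elim
      · exact ⟨b', hb2, e2⟩
    · exact ⟨b, hb1, e1⟩
  obtain ⟨x, hx, hx2⟩ := hexq
  obtain ⟨y, hy, hy2⟩ := hexr
  exact h.rel_z hG hm hs hz3 hzp hj hx hy hx2 hy2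

end Str

end EF18
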