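import Pool.Agent.Lib.MP_ef18bd_co.X.Star2

/-!
# A small maximal packing in cubic graphs of girth at least seven
-/

set_option linter.unusedSectionVars false

namespace EF18

open Finset MinPk

variable {V : Type} [Fintype V] [DecidableEq V] {G : SimpleGraph V} [DecidableRel G.Adj] {M : Finset V}

/-- the arithmetic when the first arm has a double payment -/
theorem arith_sp {zp zq zr kp kq kr Xp Xq Xr Sp Sq Sr Wp Wq Wr : ℕ} (ap : kp + zp = 2) (aq : kq + zq = 2)
    (ar : kr + zr = 2) (xp : Xp ≤ kp) (xq : Xq ≤ kq) (xr : Xr ≤ kr) (sp : Sp ≤ kp) (sq : Sq ≤ kq)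
    (sr : Sr ≤ kr) (wp : zp ≤ Wp) (fp : 1 ≤ zq ∧ 1 ≤ zr ∧ zq + zr + 1 ≤ Wq + Wr)
    (fq : 1 ≤ Sq → 1 ≤ zp) (fr : 1 ≤ Sr → 1 ≤ zp) (gp : 2 ≤ Sp → zq = 1 → zr = 1 → 4 ≤ Wq + Wr) :
    (Xp + Sp) + (Xq + Sq) + (Xr + Sr) ≤ 2 + (Wp + Wq + Wr) := by
  obtain ⟨h1, h2, h3⟩ := fp
  by_cases h4 : 3 ≤ zp + zq + zr
  · clear fq fr gp
    omega
  · have e1 : zq = 1 := by omega
    have e2 : zr = 1 := by omega
    have e3 : zp = 0 := by omega
    have e4 : Sq = 0 := by
      by_contra h
      have := fq (by omega)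
      omega
    have e5 : Sr = 0 := by
      by_contra h
      have := fr (by omega)
      omega
    by_cases h5 : 2 ≤ Sp
    · have := gp h5 e1 e2
      clear gp fq fr
      omega
    · clear gp fq fr
      omega

/-- the arithmetic without double payments -/
theorem arith_no {zp zq zr kp kq kr Xp Xq Xr Wp Wq Wr : ℕ} (ap : kp + zp = 2) (aq : kq + zq = 2)
    (ar : kr + zr = 2) (xp : Xp ≤ kp) (xq : Xq ≤ kq) (xr : Xr ≤ kr) (wp : zp ≤ Wp) (wq : zq ≤ Wq)
    (wr : zr ≤ Wr) (np : 1 ≤ Xp → 1 ≤ zq + zr) (nq : 1 ≤ Xq → 1 ≤ zr + zp) (nr : 1 ≤ Xr → 1 ≤ zp + zq)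
    (bp : zp = 1 → Wp = 1 → zq = 0 → zr = 0 → Xq + Xr ≤ 3)
    (bq : zq = 1 → Wq = 1 → zr = 0 → zp = 0 → Xr + Xp ≤ 3)
    (br : zr = 1 → Wr = 1 → zp = 0 → zq = 0 → Xp + Xq ≤ 3) :
    Xp + Xq + Xr ≤ 2 + (Wp + Wq + Wr) := by
  by_cases h2 : 2 ≤ zp + zq + zr
  · clear np nq nr bp bq br
    omega
  have zX : ∀ {X z w : ℕ}, (1 ≤ X → 1 ≤ z + w) → z = 0 → w = 0 → X = 0 := by
    intro X z w h h1 h2
    by_contra h3
    have := h (by omega)
    omega
  by_cases h0 : zp + zq + zr = 0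
  · have e1 := zX np (by omega) (by omega)
    have e2 := zX nq (by omega) (by omega)
    have e3 := zX nr (by omega) (by omega)
    omega
  obtain h | h | h : (zp = 1 ∧ zq = 0 ∧ zr = 0) ∨ (zq = 1 ∧ zr = 0 ∧ zp = 0) ∨ (zr = 1 ∧ zp = 0 ∧ zq = 0) := by
    clear np nq nr bp bq br zX
    omega
  · have e1 := zX np h.2.1 h.2.2
    by_cases hW : Wp = 1
    · have := bp h.1 hW h.2.1 h.2.2
      clear np nq nr bp bq br zX
      omega
    · clear np nq nr bp bq br zX
      omega
  · have e1 := zX nq h.2.1 h.2.2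
    by_cases hW : Wq = 1
    · have := bq h.1 hW h.2.1 h.2.2
      clear np nq nr bp bq br zX
      omega
    · clear np nq nr bp bq br zX
      omega
  · have e1 := zX nr h.2.1 h.2.2
    by_cases hW : Wr = 1
    · have := br h.1 hW h.2.1 h.2.2
      clear np nq nr bp bq br zX
      omega
    · clear np nq nr bp bq br zX
      omega

theorem Str.ineq (hG : G.IsRegularOfDegree 3) (hm : MinPk G M) (hs : NoShort G) {m p q r : V}
    (h : Str G M m p q r) :
    (cX G M p + cS G M p) + (cX G M q + cS G M q) + (cX G M r + cS G M r) ≤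
      2 + (Ws G M p + Ws G M q + Ws G M r) := by
  have h1 := h.rot
  have h2 := h1.rot
  have ap := card_two hG hm h.arm
  have aq := card_two hG hm h1.arm
  have ar := card_two hG hm h2.arm
  have xp := cX_le (G := G) (M := M) p
  have xq := cX_le (G := G) (M := M) q
  have xr := cX_le (G := G) (M := M) r
  have sp := cS_le (G := G) (M := M) p
  have sq := cS_le (G := G) (M := M) q
  have sr := cS_le (G := G) (M := M) r
  have wp := card_le_Ws (G := G) (M := M) p
  have wq := card_le_Ws (G := G) (M := M) q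
  have wr := card_le_Ws (G := G) (M := M) r
  have fp := h.cS_pos hG hm hs
  have fq := h1.cS_pos hG hm hs
  have fr := h2.cS_pos hG hm hs
  by_cases sp1 : 1 ≤ cS G M p
  · exact arith_sp ap aq ar xp xq xr sp sq sr wp (fp sp1) (fun h => (fq h).2.1) (fun h => (fr h).1)
      (h.cS_two hG hm hs)
  by_cases sq1 : 1 ≤ cS G M q
  · have := arith_sp aq ar ap xq xr xp sq sr sp wq (fq sq1) (fun h => (fr h).2.1) (fun h => (fp h).1)
      (h1.cS_two hG hm hs)
    omega
  by_cases sr1 : 1 ≤ cS G M r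
  · have := arith_sp ar ap aq xr xp xq sr sp sq wr (fr sr1) (fun h => (fp h).2.1) (fun h => (fq h).1)
      (h2.cS_two hG hm hs)
    omega
  have := arith_no ap aq ar xp xq xr wp wq wr (h.cX_pos hG hm hs) (h1.cX_pos hG hm hs)
    (h2.cX_pos hG hm hs) (h.bare_sum hG hm hs) (h1.bare_sum hG hm hs) (h2.bare_sum hG hm hs)
  omega

theorem star_sum (hG : G.IsRegularOfDegree 3) (hm : MinPk G M) (hs : NoShort G) {m : V} (h : m ∈ M) :
    ∑ p ∈ G.neighborFinset m, (cX G M p + cS G M p) ≤ 2 + ∑ p ∈ G.neighborFinset m, Ws G M p := by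
  have h3 : (G.neighborFinset m).card = 3 := by
    rw [SimpleGraph.card_neighborFinset_eq_degree]
    exact hG m
  obtain ⟨p, q, r, hpq, hpr, hqr, he⟩ := card_eq_three.1 h3
  have hmem : ∀ x, x ∈ ({p, q, r} : Finset V) → G.Adj m x := by
    intro x hx
    rw [← he, SimpleGraph.mem_neighborFinset] at hx
    exact hx
  have hS : Str G M m p q r := ⟨h, hmem p (by simp), hmem q (by simp), hmem r (by simp), hpq, hpr, hqr⟩
  have := hS.ineq hG hm hs
  rw [he, sum_insert (by simp [hpq, hpr]), sum_insert (by simp [hqr]), sum_singleton,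
    sum_insert (by simp [hpq, hpr]), sum_insert (by simp [hqr]), sum_singleton]
  omega

theorem Ar_eq : Ar G M = M.biUnion (fun m => G.neighborFinset m) := by
  ext x
  rw [mem_Ar, mem_biUnion]
  simp

theorem Ar_disj (hm : MinPk G M) :
    (M : Set V).PairwiseDisjoint (fun m => G.neighborFinset m) := by
  intro m h1 n h2 hne
  rw [Function.onFun, disjoint_left]
  intro x hx hx2
  rw [SimpleGraph.mem_neighborFinset] at hx hx2
  exact hne (hm.uniq h1 h2 hx hx2)

theorem sum_Ar (hm : MinPk G M) (f : V → ℕ) :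
    ∑ a ∈ Ar G M, f a = ∑ m ∈ M, ∑ a ∈ G.neighborFinset m, f a := by
  rw [Ar_eq, sum_biUnion (Ar_disj hm)]

theorem card_Ar (hG : G.IsRegularOfDegree 3) (hm : MinPk G M) : (Ar G M).card = 3 * M.card := by
  rw [card_eq_sum_ones, sum_Ar hm]
  have : ∀ m ∈ M, ∑ a ∈ G.neighborFinset m, 1 = 3 := by
    intro m _
    rw [← card_eq_sum_ones, SimpleGraph.card_neighborFinset_eq_degree]
    exact hG m
  rw [sum_congr rfl this, sum_const, smul_eq_mul, mul_comm]

theorem swap_A (f : V → V → ℕ) :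
    ∑ a ∈ Ar G M, ∑ q ∈ nA G M a, f q a = ∑ q ∈ Ar G M, ∑ a ∈ nA G M q, f q a := by
  refine sum_comm' ?_
  intro x y
  rw [mem_nA, mem_nA, G.adj_comm]
  tauto

theorem swap_Z (f : V → ℕ) :
    ∑ a ∈ Ar G M, ∑ z ∈ nZ G M a, f z = ∑ z ∈ Zz G M, (nA G M z).card * f z := by
  have h : ∑ a ∈ Ar G M, ∑ z ∈ nZ G M a, f z = ∑ z ∈ Zz G M, ∑ a ∈ nA G M z, f z := by
    refine sum_comm' ?_
    intro x y
    rw [mem_nA, mem_nZ, G.adj_comm]
    tauto
  rw [h]
  refine sum_congr rfl fun z _ => ?_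
  rw [sum_const, smul_eq_mul]

theorem sum_Yy (hG : G.IsRegularOfDegree 3) (hm : MinPk G M) (hs : NoShort G) :
    ∑ a ∈ Ar G M, (Yy G M a).card ≤ ∑ z ∈ Zz G M, (if (nA G M z).card = 1 then 2 else 0) := by
  classical
  have h1 : ∑ a ∈ Ar G M, (Yy G M a).card =
      ∑ z ∈ Zz G M, ((Ar G M).filter (fun a => z ∈ Yy G M a)).card := by
    have : ∀ a ∈ Ar G M, (Yy G M a).card = ∑ z ∈ Zz G M, if z ∈ Yy G M a then 1 else 0 := by
      intro a _
      rw [← card_filter]
      congr 1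
      ext z
      rw [mem_filter]
      exact ⟨fun h => ⟨(mem_Yy.1 h).2.1, h⟩, fun h => h.2⟩
    rw [sum_congr rfl this, sum_comm]
    refine sum_congr rfl fun z _ => ?_
    rw [card_filter]
  rw [h1]
  refine sum_le_sum fun z hz => ?_
  have hzM := (mem_Zz.1 hz).1
  rcases ((Ar G M).filter (fun a => z ∈ Yy G M a)).eq_empty_or_nonempty with h0 | ⟨a, ha⟩
  · rw [h0, card_empty]
    omega
  · rw [mem_filter] at ha
    have h2 := (mem_Yy.1 ha.2).2.2
    have h3 : (nA G M z).card = 1 := by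
      have h4 := card_pos.2 (nA_nonempty hm hz)
      by_contra hne
      have h5 : 1 < (nA G M z).card := by omega
      obtain ⟨v, hv, w, hw, hvw⟩ := one_lt_card.1 h5
      exact hvw (sib_one hm hs hzM (mem_nA.1 hv).1 (mem_nA.1 hw).1 (h2 v hv) (h2 w hw))
    rw [if_pos h3]
    obtain ⟨v, hv⟩ := card_eq_one.1 h3
    have hv2 : v ∈ nA G M z := by rw [hv]; simp
    obtain ⟨c, hc, hcv⟩ := mem_Ar.1 (mem_nA.1 hv2).2
    have h6 : (Ar G M).filter (fun a => z ∈ Yy G M a) ⊆ (G.neighborFinset c).erase v := by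
      intro b hb
      rw [mem_filter] at hb
      obtain ⟨hne, n, hn, e1, e2⟩ := (mem_Yy.1 hb.2).2.2 v hv2
      obtain rfl := hm.uniq hc hn hcv e2
      rw [mem_erase, SimpleGraph.mem_neighborFinset]
      exact ⟨hne, e1⟩
    have h7 := card_le_card h6
    rw [card_erase_of_mem (by rw [SimpleGraph.mem_neighborFinset]; exact hcv),
      SimpleGraph.card_neighborFinset_eq_degree, hG c] at h7
    omega

open scoped Classical in
theorem sum_pay (hG : G.IsRegularOfDegree 3) (hm : MinPk G M) (hs : NoShort G) :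
    ∑ a ∈ Ar G M, (nA G M a).card ≤ ∑ q ∈ Ar G M, (cX G M q + cS G M q) +
      ∑ a ∈ Ar G M, (Yy G M a).card := by
  have h1 : ∑ q ∈ Ar G M, (cX G M q + cS G M q) = ∑ q ∈ Ar G M, ∑ a ∈ nA G M q,
      ((if Xx G M q a then 1 else 0) + (if Sp G M q a then 1 else 0)) := by
    refine sum_congr rfl fun q _ => ?_
    rw [sum_add_distrib, ← card_filter, ← card_filter]
    rfl
  rw [h1, ← swap_A (fun q a => (if Xx G M q a then 1 else 0) + (if Sp G M q a then 1 else 0)),
    ← sum_add_distrib]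
  exact sum_le_sum fun a ha => pay hG hm hs ha

theorem card_V (hG : G.IsRegularOfDegree 3) (hm : MinPk G M) :
    Fintype.card V = 4 * M.card + (Zz G M).card := by
  have h1 : (univ : Finset V) = M ∪ (Ar G M ∪ Zz G M) := by
    ext x
    simp only [mem_univ, mem_union, true_iff]
    exact cases3 x
  have h2 : Disjoint (Ar G M) (Zz G M) := by
    rw [disjoint_left]
    exact fun x hx hx2 => zz_notAr hx2 hx
  have h3 : Disjoint M (Ar G M ∪ Zz G M) := by
    rw [disjoint_left]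
    intro x hx hx2
    rw [mem_union] at hx2
    rcases hx2 with h | h
    · exact hm.ar_notMem h hx
    · exact (mem_Zz.1 h).1 hx
  rw [← card_univ, h1, card_union_of_disjoint h3, card_union_of_disjoint h2, card_Ar hG hm]
  omega

/-- the size of a minimum maximal packing -/
theorem min_bound (hG : G.IsRegularOfDegree 3) (hm : MinPk G M) (hs : NoShort G) :
    14 * M.card ≤ 3 * Fintype.card V := by
  have h1 := sum_pay hG hm hs
  have h2 := sum_Yy hG hm hs
  have h3 : ∑ q ∈ Ar G M, (cX G M q + cS G M q) ≤ 2 * M.card + ∑ q ∈ Ar G M, Ws G M q := by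
    rw [sum_Ar hm, sum_Ar hm]
    have : 2 * M.card + ∑ m ∈ M, ∑ a ∈ G.neighborFinset m, Ws G M a =
        ∑ m ∈ M, (2 + ∑ a ∈ G.neighborFinset m, Ws G M a) := by
      rw [sum_add_distrib, sum_const, smul_eq_mul, mul_comm]
    rw [this]
    exact sum_le_sum fun m hmm => star_sum hG hm hs hmm
  have h4 : ∑ q ∈ Ar G M, Ws G M q = ∑ z ∈ Zz G M, (nA G M z).card * wt (nA G M z).card :=
    swap_Z (fun z => wt (nA G M z).card)
  have h5 : ∑ a ∈ Ar G M, (nA G M a).card + ∑ z ∈ Zz G M, (nA G M z).card = 6 * M.card := by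
    have e1 : ∑ z ∈ Zz G M, (nA G M z).card = ∑ a ∈ Ar G M, (nZ G M a).card := by
      have := swap_Z (G := G) (M := M) (fun _ => 1)
      simp only [mul_one] at this
      rw [← this]
      exact sum_congr rfl fun a _ => (card_eq_sum_ones _).symm
    rw [e1, ← sum_add_distrib, sum_congr rfl (fun a ha => card_two hG hm ha), sum_const, smul_eq_mul,
      card_Ar hG hm]
    omega
  have h6 : ∑ z ∈ Zz G M, (nA G M z).card * wt (nA G M z).card +
      ∑ z ∈ Zz G M, (if (nA G M z).card = 1 then 2 else 0) + ∑ z ∈ Zz G M, (nA G M z).card ≤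
      6 * (Zz G M).card := by
    rw [← sum_add_distrib, ← sum_add_distrib]
    have : 6 * (Zz G M).card = ∑ z ∈ Zz G M, 6 := by rw [sum_const, smul_eq_mul, mul_comm]
    rw [this]
    refine sum_le_sum fun z hz => ?_
    have e1 := card_pos.2 (nA_nonempty hm hz)
    have e2 : (nA G M z).card ≤ 3 := by
      have := card_le_card (inter_subset_left : nA G M z ⊆ G.neighborFinset z)
      rwa [SimpleGraph.card_neighborFinset_eq_degree, hG z] at this
    obtain e3 | e3 | e3 : (nA G M z).card = 1 ∨ (nA G M z).card = 2 ∨ (nA G M z).card = 3 := by omega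
    · rw [e3]; decide
    · rw [e3]; decide
    · rw [e3]; decide
  have h7 := card_V hG hm
  omega

/-- every cubic graph of girth at least seven has a maximal packing with at most `3n/14` vertices -/
theorem girth_seven (hG : G.IsRegularOfDegree 3) (hg : 7 ≤ G.egirth) :
    ∃ S : Finset V, Pk G S ∧ Mx G univ S ∧ 14 * S.card ≤ 3 * Fintype.card V := by
  obtain ⟨M, hm⟩ := exists_minPk G
  refine ⟨M, ?_, ?_, min_bound hG hm (noShort hg)⟩
  · intro v
    rw [card_le_one]
    intro a ha b hb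
    rw [mem_inter] at ha hb
    exact hm.sc a ha.2 b hb.2 (mem_B2.2 ⟨v, mem_cn_comm.1 hb.1, ha.1⟩)
  · intro v _
    obtain ⟨s, hs, hv⟩ := hm.dom v
    obtain ⟨u, hu, hv2⟩ := mem_B2.1 hv
    exact ⟨u, mem_cn_comm.1 hv2, s, mem_inter.2 ⟨mem_cn_comm.1 hu, hs⟩⟩

end EF18
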